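import Pool.Agent.W323.PT.Stm

/-! Three points from a pattern of positive weight (`S_Succ`). -/

set_option autoImplicit false

namespace Pool.Agent.W73.PT

open Pool.Agent.W323.PT

theorem mass_mono {ι : Type} [Fintype ι] (w : ι → ℝ) (hw : ∀ i, 0 ≤ w i) {p p' : ι → Prop}
    (h : ∀ i, p i → p' i) : mass w p ≤ mass w p' := by
  classical
  unfold mass
  refine Finset.sum_le_sum fun i _ => ?_
  by_cases h1 : p i
  · rw [if_pos h1, if_pos (h i h1)]
  · rw [if_neg h1]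
    split_ifs
    · exact hw i
    · exact le_refl _

theorem not_both {ι : Type} (P : Bool → ι → Pt) (K : Set Pt) (b : Bool) (i : ι)
    (h1 : P b i ∉ K) (h2 : P (!b) i ∉ K) : P false i ∉ K ∧ P true i ∉ K := by
  cases b
  · exact ⟨h1, h2⟩
  · exact ⟨h2, h1⟩

theorem succ : S_Tri → S_Center → S_Succ := by
  classical
  intro hTri hCen ι _ w P F δ hδ hw hconv hmiss c r1 r2 r3 r4 bx b' hfan hx hy hz
  -- the members avoiding a region which carries weight at least `3 δ` have a common point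
  have key : ∀ (A : Pt → Prop) (b : Bool), 3 * δ ≤ mass w (fun i => A (P b i)) →
      ∃ e, ∀ K ∈ F.filter (fun K => ∀ u ∈ K, ¬ A u), e ∈ K := by
    intro A b hA
    refine hCen ι w (fun i => P (!b) i) (F.filter (fun K => ∀ u ∈ K, ¬ A u))
      (fun i => A (P b i)) δ hw (fun K hK => hconv K (Finset.mem_filter.mp hK).1) hA ?_
    intro K hK
    obtain ⟨hKF, hKA⟩ := Finset.mem_filter.mp hK
    refine lt_of_le_of_lt (mass_mono w hw ?_) (hmiss K hKF)
    rintro i ⟨h1, h2⟩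
    exact not_both P K b i (fun h3 => hKA _ h3 h1) h2
  obtain ⟨c1, hc1⟩ := key (fun u => Btw c r1 r2 u) bx hx
  obtain ⟨c2, hc2⟩ := key (fun u => Btw c r3 r4 u) b' hy
  refine ⟨{c1, c2, c}, Finset.card_le_three, ?_⟩
  intro K hK
  by_cases h1 : ∀ u ∈ K, ¬ Btw c r1 r2 u
  · exact ⟨c1, by simp, hc1 K (Finset.mem_filter.mpr ⟨hK, h1⟩)⟩
  by_cases h2 : ∀ u ∈ K, ¬ Btw c r3 r4 u
  · exact ⟨c2, by simp, hc2 K (Finset.mem_filter.mpr ⟨hK, h2⟩)⟩
  push Not at h1 h2
  obtain ⟨x, hxK, hxA⟩ := h1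
  obtain ⟨y, hyK, hyA⟩ := h2
  have h3 : ∃ z ∈ K, Opp c r2 r3 z := by
    by_contra hno
    push Not at hno
    have h4 : mass w (fun i => Opp c r2 r3 (P false i) ∧ Opp c r2 r3 (P true i)) ≤
        mass w (fun i => P false i ∉ K ∧ P true i ∉ K) := by
      refine mass_mono w hw ?_
      rintro i ⟨h5, h6⟩
      exact ⟨fun h7 => hno _ h7 h5, fun h7 => hno _ h7 h6⟩
    linarith [hmiss K hK]
  obtain ⟨z, hzK, hzA⟩ := h3
  refine ⟨c, by simp, ?_⟩
  have h8 := hTri c r1 r2 r3 r4 x y z hfan hxA hyA hzA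
  refine convexHull_min ?_ (hconv K hK) h8
  intro u hu
  simp only [Set.mem_insert_iff, Set.mem_singleton_iff] at hu
  rcases hu with rfl | rfl | rfl
  · exact hxK
  · exact hyK
  · exact hzK

end Pool.Agent.W73.PT
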